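import Pool.Agent.Helper7.KT.St

set_option autoImplicit false

/-! Module XUB of project KT: the vertices served with `u` form a thin set. -/

namespace Pool.Agent.Helper54.KT

open Finset SimpleGraph Filter Topology
open EX Pool.Agent.Helper7.KT

open scoped Classical

/-- The claim: few served vertices are adjacent to two given vertices. -/
theorem claim (hEMT : StEMT) (U : Type) [Fintype U] (G : SimpleGraph U) (t : ℕ) (hG : Bp G 3 t)
    (D : ℕ) (V : Type) [Fintype V] (H : Finset (Finset V)) (hH : Fr 2 G H)
    (P : V → V → Prop) (hP : Bd D P) (u y z : V) (hyz : y ≠ z) (hy : y ≠ u) (hz : z ≠ u) :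
    (univ.filter fun v => (∃ g, P g v ∧ T3 H u v g) ∧ (Γr 2 G H).Adj v y ∧
      (Γr 2 G H).Adj v z).card ≤ t * (D * D + D + 1) + 2 * D := by
  by_contra hcon
  push Not at hcon
  set S : Finset V := univ.filter fun v => (∃ g, P g v ∧ T3 H u v g) ∧ (Γr 2 G H).Adj v y ∧
      (Γr 2 G H).Adj v z with hS
  obtain ⟨hPs, hPd⟩ := hP
  have hPd' : ∀ g, (univ.filter fun v => P g v).card ≤ D := by
    intro g
    refine (card_le_card ?_).trans (hPd g)
    intro v hv
    simp only [mem_filter, mem_univ, true_and] at hv ⊢
    exact hPs _ _ hv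
  set W : Finset V := (univ.filter fun v => P y v) ∪ (univ.filter fun v => P z v) with hW
  have hWc : W.card ≤ 2 * D := by
    have h1 := card_union_le (univ.filter fun v => P y v) (univ.filter fun v => P z v)
    have h2 := hPd' y
    have h3 := hPd' z
    rw [← hW] at h1
    omega
  set Z : Finset V := S \ W with hZ
  have hZc : t * (D * D + D + 1) ≤ Z.card := by
    have h1 := card_le_card_sdiff_add_card (s := S) (t := W)
    rw [← hZ] at h1
    omega
  let R : V → V → Prop := fun v v' => P v v' ∨ ∃ g, P g v ∧ P g v'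
  have hR : ∀ v v', R v v' → R v' v := by
    rintro v v' (h | ⟨g, h1, h2⟩)
    · exact Or.inl (hPs _ _ h)
    · exact Or.inr ⟨g, h2, h1⟩
  obtain ⟨Z', hZ'Z, hZ'c, hZ'i⟩ := EX.FB.indep R hR (D * D + D) t Z (by
    intro v _
    refine ⟨((univ.filter fun g => P g v).biUnion fun g => univ.filter fun v' => P g v') ∪
      (univ.filter fun v' => P v v'), ?_, ?_⟩
    · refine (card_union_le _ _).trans ?_
      refine Nat.add_le_add ?_ (hPd' v)
      refine (card_biUnion_le_card_mul _ _ D (fun g _ => hPd' g)).trans ?_
      exact Nat.mul_le_mul_right _ (hPd v)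
    · rintro v' _ _ (h | ⟨g, h1, h2⟩)
      · refine mem_union_right _ ?_
        simp only [mem_filter, mem_univ, true_and]
        exact h
      · refine mem_union_left _ ?_
        rw [mem_biUnion]
        refine ⟨g, ?_, ?_⟩
        · simp only [mem_filter, mem_univ, true_and]
          exact h1
        · simp only [mem_filter, mem_univ, true_and]
          exact h2) hZc
  -- enumeration of the set
  let e : Fin t ≃ Z' := (Z'.equivFinOfCardEq hZ'c).symm
  let v : Fin t → V := fun j => (e j : V)
  have hvinj : Function.Injective v := fun i j h => e.injective (Subtype.ext h)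
  have hvZ' : ∀ j, v j ∈ Z' := fun j => (e j).2
  have hvZ : ∀ j, v j ∈ Z := fun j => hZ'Z (hvZ' j)
  have hvS : ∀ j, (∃ g, P g (v j) ∧ T3 H u (v j) g) ∧ (Γr 2 G H).Adj (v j) y ∧
      (Γr 2 G H).Adj (v j) z := by
    intro j
    have h1 := (mem_sdiff.1 (hvZ j)).1
    rw [hS, mem_filter] at h1
    exact h1.2
  have hvW : ∀ j, ¬ P y (v j) ∧ ¬ P z (v j) := by
    intro j
    have h1 := (mem_sdiff.1 (hvZ j)).2
    rw [hW, mem_union, not_or, mem_filter, mem_filter] at h1
    exact ⟨fun h => h1.1 ⟨mem_univ _, h⟩, fun h => h1.2 ⟨mem_univ _, h⟩⟩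
  have hind : ∀ i j, i ≠ j → ¬ R (v i) (v j) := fun i j hij =>
    hZ'i _ (hvZ' i) _ (hvZ' j) (fun h => hij (hvinj h))
  choose g hgP hgT using fun j => (hvS j).1
  let a : Fin 3 → V := ![y, z, u]
  have ha0 : a 0 = y := rfl
  have ha1 : a 1 = z := rfl
  have ha2 : a 2 = u := rfl
  have h3 : ∀ i : Fin 3, i = 0 ∨ i = 1 ∨ i = 2 := by decide
  refine hH.2 (hEMT U G 3 t hG V H hH.1 a v ?_ hvinj ?_ (fun i _ => i = 2) (fun _ j => g j)
    ?_ ?_ ?_ ?_ ?_)
  · intro i j hij
    rcases h3 i with rfl | rfl | rfl <;> rcases h3 j with rfl | rfl | rfl <;>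
      simp only [ha0, ha1, ha2] at hij
    · rfl
    · exact absurd hij hyz
    · exact absurd hij hy
    · exact absurd hij.symm hyz
    · rfl
    · exact absurd hij hz
    · exact absurd hij.symm hy
    · exact absurd hij.symm hz
    · rfl
  · intro i j
    rcases h3 i with rfl | rfl | rfl
    · rw [ha0]
      exact ((hvS j).2.1.ne).symm
    · rw [ha1]
      exact ((hvS j).2.2.ne).symm
    · rw [ha2]
      exact (hgT j).1
  · rintro i j rfl
    rw [ha2]
    exact hgT j
  · rintro i j i' j' rfl rfl h
    refine ⟨rfl, ?_⟩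
    by_contra hne
    refine hind j j' hne (Or.inr ⟨g j, hgP j, ?_⟩)
    have h' : g j = g j' := h
    rw [h']
    exact hgP j'
  · rintro i j i' rfl
    have h' : g j ≠ a i' := by
      rcases h3 i' with rfl | rfl | rfl
      · rw [ha0]
        intro h
        exact (hvW j).1 (h ▸ hgP j)
      · rw [ha1]
        intro h
        exact (hvW j).2 (h ▸ hgP j)
      · rw [ha2]
        exact ((hgT j).2.1).symm
    exact h'
  · rintro i j j' rfl
    have h' : g j ≠ v j' := by
      intro h
      by_cases hjj : j = j'
      · subst hjj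
        exact (hgT j).2.2.1 h.symm
      · refine hind j' j (fun h2 => hjj h2.symm) (Or.inl ?_)
        rw [← h]
        exact hgP j
    exact h'
  · intro i j hi
    rcases h3 i with rfl | rfl | rfl
    · rw [ha0]
      exact (hvS j).2.1.symm
    · rw [ha1]
      exact (hvS j).2.2.symm
    · exact absurd rfl hi

theorem hXUB (hEMT : StEMT) : StXUB := by
  intro U _ G t hG D
  refine ⟨t * (D * D + D + 1) + 2 * D, ?_⟩
  intro V _ H hH P hP u
  set D' := t * (D * D + D + 1) + 2 * D with hD'
  set Γ := Γr 2 G H with hΓ
  set X : Finset V := univ.filter (fun v => ∃ g, P g v ∧ T3 H u v g) with hX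
  have h1 : ∀ v ∈ X, (dg Γ univ v - 1).choose 2 ≤
      ((powersetCard 2 (univ : Finset V)).filter fun B => B ⊆ (nb Γ univ v).erase u).card := by
    intro v _
    have h2 : dg Γ univ v - 1 ≤ ((nb Γ univ v).erase u).card := by
      unfold dg
      exact pred_card_le_card_erase
    refine (Nat.choose_le_choose 2 h2).trans ?_
    rw [← card_powersetCard]
    refine card_le_card ?_
    intro B hB
    rw [mem_powersetCard] at hB
    rw [mem_filter, mem_powersetCard]
    exact ⟨⟨subset_univ _, hB.2⟩, hB.1⟩
  refine (sum_le_sum h1).trans ?_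
  have h2 := sum_card_bipartiteAbove_eq_sum_card_bipartiteBelow
    (s := X) (t := powersetCard 2 (univ : Finset V)) (fun v B => B ⊆ (nb Γ univ v).erase u)
  unfold bipartiteAbove bipartiteBelow at h2
  rw [h2]
  calc ∑ B ∈ powersetCard 2 (univ : Finset V), (X.filter fun v => B ⊆ (nb Γ univ v).erase u).card
      ≤ ∑ _B ∈ powersetCard 2 (univ : Finset V), D' := by
        refine sum_le_sum ?_
        intro B hB
        rw [mem_powersetCard] at hB
        obtain ⟨y, z, hyz, rfl⟩ := card_eq_two.1 hB.2
        by_cases hu : y ≠ u ∧ z ≠ u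
        · refine (card_le_card ?_).trans
            (claim hEMT U G t hG D V H hH P hP u y z hyz hu.1 hu.2)
          intro v hv
          rw [mem_filter, hX, mem_filter] at hv
          obtain ⟨⟨_, hv1⟩, hv2⟩ := hv
          rw [mem_filter]
          have h3 := hv2 (mem_insert_self y {z})
          have h4 := hv2 (mem_insert_of_mem (mem_singleton_self z))
          rw [mem_erase] at h3 h4
          have h5 := h3.2
          have h6 := h4.2
          unfold nb at h5 h6
          rw [mem_filter] at h5 h6
          exact ⟨mem_univ _, hv1, h5.2, h6.2⟩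
        · have h3 : (X.filter fun v => ({y, z} : Finset V) ⊆ (nb Γ univ v).erase u) = ∅ := by
            rw [filter_eq_empty_iff]
            intro v _ h4
            rw [not_and_or, not_not, not_not] at hu
            rcases hu with rfl | rfl
            · exact (mem_erase.1 (h4 (mem_insert_self _ _))).1 rfl
            · exact (mem_erase.1 (h4 (mem_insert_of_mem (mem_singleton_self _)))).1 rfl
          rw [h3, card_empty]
          exact Nat.zero_le _
    _ = D' * (Fintype.card V).choose 2 := by
        rw [sum_const, card_powersetCard, smul_eq_mul, mul_comm, card_univ]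

end Pool.Agent.Helper54.KT
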